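import Mathlib
import Pool.Prelude.Def_F_c31e40fa
import Pool.Agent.Run7.h495.IR.Rate
import Pool.Agent.Y736.RN.G

set_option autoImplicit false

/-!
# Rates at almost every infinitely renormalizable parameter

At almost every parameter `c` of the Mandelbrot set, in particular at almost every infinitely
renormalizable parameter, the harmonic measure and Green's function of the disc of radius `r` about
`c` are at most `exp (-(log (1 / r)) ^ γ)` for small `r`, for every `γ < 2`; the disc contains at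
most `2 ^ n exp (-(log (1 / r)) ^ γ) + K n` centres of hyperbolic components of period dividing `n`,
for all `n` at the same time; and a continuous extension of the exterior map moves at least
`exp (-(log (1 / δ)) ^ β)` on every small arc of radius `δ` about a point over `c`, for every
`β > 1 / 2`.
-/

open Filter Topology Set Metric MeasureTheory Complex N62a1eb23

namespace Pool.Agent.Results.MP_b511e9_an.AlmostEveryRates

open Pool.Agent.H713R2

/-- The map `z ↦ z ^ 2 + c`. -/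
def f (c : ℂ) : ℂ → ℂ := fun z => z ^ 2 + c

/-- The superattracting parameters of period dividing `n`: the centres of the hyperbolic components
of these periods. -/
def centres (n : ℕ) : Set ℂ := {a | (f a)^[n] 0 = 0}

/-- `h` is proper of degree at most `2` from the bounded open set `U` onto a set which contains the
closure of `U`. Polynomial-like maps of degree `2` have this property. -/
def PolynomialLike (h : ℂ → ℂ) (U : Set ℂ) : Prop :=
  IsOpen U ∧ Bornology.IsBounded U ∧ closure U ⊆ h '' U ∧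
    (∀ K ⊆ h '' U, IsCompact K → IsCompact {z | z ∈ U ∧ h z ∈ K}) ∧
    ∀ w ∈ h '' U, {z | z ∈ U ∧ h z = w}.encard ≤ 2

/-- `z ↦ z ^ 2 + c` is renormalizable of period `p`. -/
def Renormalizable (c : ℂ) (p : ℕ) : Prop :=
  ∃ U : Set ℂ, PolynomialLike ((f c)^[p]) U ∧ (0 : ℂ) ∈ U ∧
    ∀ n : ℕ, 1 ≤ n → (f c)^[n * p] 0 ∈ U

/-- The infinitely renormalizable parameters. -/
def IR : Set ℂ := {c | {p : ℕ | Renormalizable c p}.Infinite}

/-- The angles `t ∈ (0, 2π]` of the external rays landing at distance less than `r` from `c₀`. -/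
def angles (ψ : ℂ → ℂ) (c₀ : ℂ) (r : ℝ) : Set ℝ :=
  {t | t ∈ Ioc 0 (2 * Real.pi) ∧ ∃ ζ ∈ ball c₀ r,
    Tendsto (fun ρ : ℝ => ψ (ρ * exp (t * I))) (𝓝[>] 1) (𝓝 ζ)}

/-- The harmonic measure (from infinity) of the disc of radius `r`, up to the factor `2π`. -/
noncomputable def harm (ψ : ℂ → ℂ) (c₀ : ℂ) (r : ℝ) : ℝ := (volume (angles ψ c₀ r)).toReal

/-- The maximum over a disc of Green's function of the complement of the Mandelbrot set: Green's
function is `log ‖w‖` at the point `ψ w`. -/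
noncomputable def green (ψ : ℂ → ℂ) (c₀ : ℂ) (r : ℝ) : ℝ :=
  sSup {x | ∃ w : ℂ, 1 < ‖w‖ ∧ ‖ψ w - c₀‖ ≤ r ∧ Real.log ‖w‖ = x}

/-- The rates at `c`. -/
structure Rates (K : ℝ) (ψ : ℂ → ℂ) (c : ℂ) : Prop where
  /-- Harmonic measure, Green's function and the number of centres for small discs. -/
  discs : ∀ γ : ℝ, γ < 2 → ∀ᶠ r : ℝ in 𝓝[>] 0,
    harm ψ c r ≤ Real.exp (-(Real.log (1 / r)) ^ γ) ∧
    green ψ c r ≤ Real.exp (-(Real.log (1 / r)) ^ γ) ∧
    ∀ n : ℕ, 1 ≤ n → ((centres n ∩ ball c r).ncard : ℝ) ≤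
      (2 : ℝ) ^ n * Real.exp (-(Real.log (1 / r)) ^ γ) + K * n
  /-- Movement of the boundary map. -/
  arcs : ∀ F : ℂ → ℂ, ContinuousOn F {w : ℂ | 1 ≤ ‖w‖} → (∀ w : ℂ, 1 < ‖w‖ → F w = ψ w) →
    ∀ ζ : ℂ, ‖ζ‖ = 1 → F ζ = c → ∀ β : ℝ, 1 / 2 < β → ∀ᶠ δ : ℝ in 𝓝[>] 0,
      ∃ ξ : ℂ, ‖ξ‖ = 1 ∧ ‖ξ - ζ‖ ≤ δ ∧ Real.exp (-(Real.log (1 / δ)) ^ β) ≤ ‖F ξ - F ζ‖

/-- The constant. -/
noncomputable def K0 : ℝ := Pool.Agent.R240.LL.KL * Real.log 2

theorem inter_ncard (N : ℕ) (c : ℂ) (r : ℝ) :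
    (centres (N + 1) ∩ ball c r).ncard = Pool.Agent.R240.LL.nz 2 N c r := by
  have h : centres (N + 1) ∩ ball c r =
      (((Pool.Agent.R240.LL.ZZ 2 N).filter (fun a => ‖a - c‖ < r) : Finset ℂ) : Set ℂ) := by
    ext a
    rw [Finset.mem_coe, Finset.mem_filter, Pool.Agent.R240.LL.mem_ZZ le_rfl, mem_inter_iff,
      mem_ball, dist_eq_norm]
    rfl
  rw [h, Set.ncard_coe_finset]
  rfl

theorem rates_of_calm {ψ : ℂ → ℂ} (hψ : IsExteriorMap mandelbrotSet ψ) {c : ℂ}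
    (hc : c ∈ multibrotSet 2) (h : Run7.h495.IR.Calm 2 c) : Rates K0 ψ c := by
  refine ⟨?_, ?_⟩
  · intro γ hγ
    filter_upwards [Run7.h495.IR.rates (d := 2) le_rfl hc h hψ hγ] with r hr
    obtain ⟨h1, h2, h3⟩ := hr
    refine ⟨h1, ?_, ?_⟩
    · refine Real.sSup_le ?_ (Real.exp_pos _).le
      rintro x ⟨w, hw, hwr, rfl⟩
      exact h2 w hw hwr
    · intro n hn
      obtain ⟨N, rfl⟩ : ∃ N, n = N + 1 := ⟨n - 1, by omega⟩
      rw [inter_ncard]
      refine (h3 N).trans ?_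
      have h4 : (2 : ℝ) ^ N ≤ 2 ^ (N + 1) := pow_le_pow_right₀ (by norm_num) (by omega)
      have h5 := mul_le_mul_of_nonneg_right h4 (Real.exp_pos (-(Real.log (1 / r)) ^ γ)).le
      unfold K0
      push_cast
      linarith
  · intro F hF hE ζ hζ hFζ β hβ
    exact Run7.h495.IR.loop (d := 2) le_rfl hc h hψ hF hE hζ hFζ hβ

theorem IR_sub : IR ⊆ multibrotSet 2 := by
  intro c hc
  have hc' : {p : ℕ | Renormalizable c p}.Infinite := hc
  obtain ⟨p, hp, hp0⟩ := hc'.exists_gt 0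
  exact Pool.Agent.Y736.RN.ren_mem (d := 2) hp0 hp

/-- **Rates at almost every infinitely renormalizable parameter.** -/
theorem result :
    ∃ K : ℝ, 0 < K ∧ (∃ ψ : ℂ → ℂ, IsExteriorMap mandelbrotSet ψ) ∧
    ∀ ψ : ℂ → ℂ, IsExteriorMap mandelbrotSet ψ →
      volume {c : ℂ | c ∈ mandelbrotSet ∧ ¬ Rates K ψ c} = 0 ∧
      volume {c : ℂ | c ∈ IR ∧ ¬ Rates K ψ c} = 0 ∧
      (volume IR = 0 ↔ volume {c : ℂ | c ∈ IR ∧ Rates K ψ c} = 0) := by
  have hl : 0 < Real.log 2 := Real.log_pos (by norm_num)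
  obtain ⟨β, hβ⟩ := exists_beta (d := 2) le_rfl
  refine ⟨K0, mul_pos Pool.Agent.R240.LL.KL_pos hl, ⟨_, exteriorMap_of_beta hβ⟩, ?_⟩
  intro ψ hψ
  have h0 : volume {c : ℂ | c ∈ mandelbrotSet ∧ ¬ Rates K0 ψ c} = 0 := by
    refine measure_mono_null ?_ (Run7.h495.IR.calm_ae (d := 2) le_rfl)
    rintro c ⟨hc, h1⟩
    exact ⟨hc, fun h2 => h1 (rates_of_calm hψ hc h2)⟩
  have h1 : volume {c : ℂ | c ∈ IR ∧ ¬ Rates K0 ψ c} = 0 := by
    refine measure_mono_null ?_ h0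
    rintro c ⟨hc, h2⟩
    exact ⟨IR_sub hc, h2⟩
  refine ⟨h0, h1, ?_, ?_⟩
  · intro h2
    refine measure_mono_null ?_ h2
    rintro c ⟨hc, _⟩
    exact hc
  · intro h2
    refine measure_mono_null ?_ (measure_union_null h1 h2)
    intro c hc
    by_cases h3 : Rates K0 ψ c
    · exact Or.inr ⟨hc, h3⟩
    · exact Or.inl ⟨hc, h3⟩

end Pool.Agent.Results.MP_b511e9_an.AlmostEveryRates
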