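import Mathlib
import Pool.Prelude.Def_F_c31e40fa
import Pool.Agent.Y736.RN.L
import Pool.Agent.Y736.RN.M
import Pool.Agent.Run7.h598.HM.Dim

set_option autoImplicit false

/-!
# Level sets of infinitely renormalizable quadratic polynomials

The area of the sublevel set `{G_c ≤ s}` of the Green function of `z ^ 2 + c` bounds from below the
Green function of the Mandelbrot set near `c` (a level inequality for holomorphic discs in the
parameter plane). Together with the dimension bounds of the starting library `Y736/RN` this shows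
that the level sets of infinitely renormalizable polynomials are fat: the area decays slower than
every power of `s`, outside a set of parameters of Hausdorff dimension zero.
-/

open MeasureTheory Filter Metric Set Topology

namespace Pool.Agent.Results.MP_b511e9_an.FatLevelSets

/-- The map `z ↦ z ^ 2 + c`. -/
def f (c : ℂ) : ℂ → ℂ := fun z => z ^ 2 + c

/-- The Green function (escape rate) of `z ↦ z ^ 2 + c` at the point `z`. -/
noncomputable def green (c z : ℂ) : ℝ :=
  limsup (fun n : ℕ => Real.posLog ‖(f c)^[n] z‖ / (2 : ℝ) ^ n) atTop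

/-- The area of the sublevel set `{green ≤ s}`. -/
noncomputable def area (c : ℂ) (s : ℝ) : ENNReal := volume {z : ℂ | green c z ≤ s}

/-- The level sets are fat: their area decays slower than every power. -/
def Fat : Set ℂ := {c | ∀ α : ℝ, 0 < α → ∀ᶠ s : ℝ in 𝓝[>] 0, ENNReal.ofReal (s ^ α) < area c s}

/-- `g` is proper of degree at most two from the bounded open set `U` onto a set which contains the
closure of `U`. Quadratic-like maps have this property. -/
def PolynomialLike (g : ℂ → ℂ) (U : Set ℂ) : Prop :=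
  IsOpen U ∧ Bornology.IsBounded U ∧ closure U ⊆ g '' U ∧
    (∀ K ⊆ g '' U, IsCompact K → IsCompact {z | z ∈ U ∧ g z ∈ K}) ∧
    ∀ w ∈ g '' U, {z | z ∈ U ∧ g z = w}.encard ≤ 2

/-- `z ↦ z ^ 2 + c` is renormalizable of period `p`. -/
def Renormalizable (c : ℂ) (p : ℕ) : Prop :=
  ∃ U : Set ℂ, PolynomialLike ((f c)^[p]) U ∧ (0 : ℂ) ∈ U ∧
    ∀ n : ℕ, 1 ≤ n → (f c)^[n * p] 0 ∈ U

/-- The infinitely renormalizable parameters. -/
def IR : Set ℂ := {c | {p : ℕ | Renormalizable c p}.Infinite}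

/-- `z ↦ z ^ 2 + c` is renormalizable of period `p` with bounds `C`: `U` contains the discs of some
radius `r` about the points `f^[n p] 0`, and its image has diameter at most `C r`. Under a priori
bounds one has `Bounds C c p` for a fixed `C` and infinitely many `p`. -/
def Bounds (C : ℝ) (c : ℂ) (p : ℕ) : Prop :=
  ∃ (U : Set ℂ) (r : ℝ), PolynomialLike ((f c)^[p]) U ∧ 0 < r ∧
    (∀ n : ℕ, ball ((f c)^[n * p] 0) r ⊆ U) ∧
    ∀ z ∈ U, ∀ z' ∈ U, ‖(f c)^[p] z - (f c)^[p] z'‖ ≤ C * r

theorem big_of_not_fat {ψ : ℂ → ℂ}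
    (hψ : Pool.Agent.H713R2.IsExteriorMap (N62a1eb23.multibrotSet 2) ψ) {c : ℂ}
    (hc : c ∈ N62a1eb23.multibrotSet 2) (h : c ∉ Fat) :
    ∃ κ : ℝ, 0 < κ ∧ Pool.Agent.Y736.RN.Big ψ κ c := by
  unfold Fat at h
  rw [mem_setOf_eq] at h
  push Not at h
  obtain ⟨α, hα, h⟩ := h
  refine ⟨1 / α, by positivity, Pool.Agent.Run7.h598.HM.big_of_area hψ hc hα ?_⟩
  exact h.mono fun s hs => hs

theorem dim_bad : dimH (IR \ Fat) = 0 := by
  obtain ⟨β, hβ⟩ := Pool.Agent.H713R2.exists_beta (d := 2) le_rfl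
  have hψ := Pool.Agent.H713R2.exteriorMap_of_beta hβ
  apply Pool.Agent.Y736.RN.dim_inf le_rfl hψ
  rintro c ⟨h1, h2⟩
  refine ⟨h1, ?_⟩
  obtain ⟨p, hp, hp0⟩ := Set.Infinite.exists_gt h1 0
  exact big_of_not_fat hψ (Pool.Agent.Y736.RN.ren_mem (d := 2) hp0 hp) h2

/-- A connected set has a point on all circles about one of its points which do not surround it. -/
theorem exists_radius {E : Set ℂ} (hE : IsPreconnected E) {c : ℂ} (hc : c ∈ E) {ρ : ℝ}
    (hρ : ¬ E ⊆ ball c ρ) {s : ℝ} (hs0 : 0 ≤ s) (hs : s ≤ ρ) : ∃ z ∈ E, dist z c = s := by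
  obtain ⟨w, hw, hwρ⟩ := not_subset.1 hρ
  have h1 : IsPreconnected ((fun z => dist z c) '' E) :=
    hE.image _ (continuous_id.dist continuous_const).continuousOn
  have h2 : s ∈ (fun z => dist z c) '' E := by
    apply h1.Icc_subset (a := 0) (b := dist w c) ⟨c, hc, dist_self c⟩ ⟨w, hw, rfl⟩
    exact ⟨hs0, hs.trans (not_lt.1 hwρ)⟩
  exact h2

theorem null_of_dim {S : Set ℂ} (h : dimH S = 0) : μH[1] S = 0 := by
  have h1 := hausdorffMeasure_of_dimH_lt (s := S) (d := 1) (by rw [h]; simp)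
  simpa using h1

theorem length_good {A E : Set ℂ} (hE : IsPreconnected E) (hA : dimH (E \ A) = 0) {c : ℂ}
    (hc : c ∈ E) {ρ : ℝ} (hρ : ¬ E ⊆ ball c ρ) :
    ENNReal.ofReal ρ ≤ μH[1] (E ∩ A ∩ ball c ρ) := by
  have hL : LipschitzWith 1 (fun z : ℂ => dist z c) := LipschitzWith.dist_left c
  have h1 : μH[1] (E \ A) = 0 := null_of_dim hA
  have h2 := hL.hausdorffMeasure_image_le (d := 1) zero_le_one (E \ A)
  rw [h1, mul_zero, nonpos_iff_eq_zero] at h2
  have h3 := hL.hausdorffMeasure_image_le (d := 1) zero_le_one (E ∩ A ∩ ball c ρ)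
  rw [ENNReal.coe_one, ENNReal.one_rpow, one_mul] at h3
  refine le_trans ?_ h3
  have h4 : Ico 0 ρ ⊆ ((fun z : ℂ => dist z c) '' (E ∩ A ∩ ball c ρ)) ∪
      ((fun z : ℂ => dist z c) '' (E \ A)) := by
    rintro s ⟨hs0, hs⟩
    obtain ⟨z, hz, hzs⟩ := exists_radius hE hc hρ hs0 hs.le
    by_cases hzA : z ∈ A
    · exact Or.inl ⟨z, ⟨⟨hz, hzA⟩, by rw [mem_ball, hzs]; exact hs⟩, hzs⟩
    · exact Or.inr ⟨z, ⟨hz, hzA⟩, hzs⟩
  calc ENNReal.ofReal ρ = μH[1] (Ico 0 ρ) := by
        rw [hausdorffMeasure_real, Real.volume_Ico, sub_zero]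
    _ ≤ μH[1] (((fun z : ℂ => dist z c) '' (E ∩ A ∩ ball c ρ)) ∪
      ((fun z : ℂ => dist z c) '' (E \ A))) := measure_mono h4
    _ ≤ _ := (measure_union_le _ _).trans (by rw [h2, add_zero])

/-- **The level sets of infinitely renormalizable quadratic polynomials are fat**, outside a set of
dimension zero, with dimension bounds for each period of renormalization; total disconnectedness and
measure zero are decided at the parameters with fat level sets. -/
theorem result :
    -- (1) all parameters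
    (∀ α : ℝ, 0 < α → dimH {c : ℂ | c ∈ N62a1eb23.multibrotSet 2 ∧
      ∃ᶠ s : ℝ in 𝓝[>] 0, area c s ≤ ENNReal.ofReal (s ^ α)} ≤ ENNReal.ofReal (1 / α)) ∧
    -- (2) renormalizable parameters of period `p`
    (∀ (p : ℕ) (α : ℝ), 1 ≤ p → 0 < α → dimH {c : ℂ | Renormalizable c p ∧
      ∃ᶠ s : ℝ in 𝓝[>] 0, area c s ≤ ENNReal.ofReal (s ^ α)} ≤ ENNReal.ofReal (1 / (p * α))) ∧
    -- (3) infinitely renormalizable parameters
    dimH (IR \ Fat) = 0 ∧
    -- (4) all infinitely renormalizable parameters with subexponential bounds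
    (∀ c : ℂ, (∀ ε : ℝ, 0 < ε → {p : ℕ | Bounds (Real.exp (ε * p)) c p}.Infinite) → c ∈ Fat) ∧
    -- (5) connected sets of infinitely renormalizable parameters
    (∀ E ⊆ IR, IsPreconnected E → ∀ c ∈ E, ∀ ρ : ℝ, ¬ E ⊆ ball c ρ →
      ENNReal.ofReal ρ ≤ μH[1] (E ∩ Fat ∩ ball c ρ)) ∧
    -- (6) the two questions
    (IsTotallyDisconnected IR ↔ ∀ c ∈ IR ∩ Fat, connectedComponentIn IR c = {c}) ∧
    (volume IR = 0 ↔ volume (IR ∩ Fat) = 0) := by
  obtain ⟨β, hβ⟩ := Pool.Agent.H713R2.exists_beta (d := 2) le_rfl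
  have hψ := Pool.Agent.H713R2.exteriorMap_of_beta hβ
  have hbad := dim_bad
  have hE0 : ∀ E ⊆ IR, dimH (E \ Fat) = 0 := by
    intro E hE
    apply le_antisymm _ bot_le
    exact (dimH_mono (sdiff_subset_sdiff_left hE)).trans hbad.le
  refine ⟨?_, ?_, hbad, ?_, ?_, ?_, ?_⟩
  · intro α hα
    refine (dimH_mono ?_).trans ((Pool.Agent.Y736.RN.dim_big (d := 2) (p := 1) le_rfl le_rfl hψ
      (by positivity : 0 < 1 / α)).trans (le_of_eq ?_))
    · rintro c ⟨h1, h2⟩
      exact ⟨Pool.Agent.Y736.RN.ren_one le_rfl h1,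
        Pool.Agent.Run7.h598.HM.big_of_area hψ h1 hα h2⟩
    · rw [Nat.cast_one, div_one]
  · intro p α hp hα
    refine (dimH_mono ?_).trans ((Pool.Agent.Y736.RN.dim_big (d := 2) le_rfl hp hψ
      (by positivity : 0 < 1 / α)).trans (le_of_eq ?_))
    · rintro c ⟨h1, h2⟩
      exact ⟨h1, Pool.Agent.Run7.h598.HM.big_of_area hψ
        (Pool.Agent.Y736.RN.ren_mem (d := 2) hp h1) hα h2⟩
    · rw [div_div, mul_comm]
  · intro c h
    obtain ⟨p, ⟨U, r, hU, hr, hball, hdiam⟩, hp0⟩ := (h 1 one_pos).exists_gt 0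
    have hren : Renormalizable c p := by
      refine ⟨U, hU, ?_, fun n _ => hball n (mem_ball_self hr)⟩
      have h1 := hball 0 (mem_ball_self hr)
      simpa using h1
    have hc := Pool.Agent.Y736.RN.ren_mem (d := 2) hp0 hren
    by_contra hcon
    obtain ⟨κ, hκ, hB⟩ := big_of_not_fat hψ hc hcon
    refine Pool.Agent.Y736.RN.not_big_of_weak le_rfl hψ hc ?_ κ hκ hB
    intro ε hε
    refine (h ε hε).mono ?_
    rintro q ⟨U, r, _, hr, hball, hdiam⟩
    exact ⟨U, r, hr, hball, hdiam⟩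
  · intro E hE hEc c hc ρ hρ
    exact length_good hEc (hE0 E hE) hc hρ
  · constructor
    · intro h c hc
      apply Subset.antisymm
      · intro z hz
        exact h _ (connectedComponentIn_subset _ _) isPreconnected_connectedComponentIn hz
          (mem_connectedComponentIn hc.1)
      · rw [singleton_subset_iff]
        exact mem_connectedComponentIn hc.1
    · intro h E hE hEc x hx y hy
      by_contra hxy
      have hd : 0 < dist y x := dist_pos.2 (Ne.symm hxy)
      have hρ : ¬ E ⊆ ball x (dist y x) := by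
        intro h1
        exact lt_irrefl _ (mem_ball.1 (h1 hy))
      have h2 := length_good hEc (hE0 E hE) hx hρ
      have h3 : (E ∩ Fat ∩ ball x (dist y x)).Nonempty := by
        by_contra h4
        rw [not_nonempty_iff_eq_empty] at h4
        rw [h4, measure_empty, nonpos_iff_eq_zero, ENNReal.ofReal_eq_zero] at h2
        linarith
      obtain ⟨c, ⟨hcE, hcI⟩, -⟩ := h3
      have h5 := h c ⟨hE hcE, hcI⟩
      have h6 : E ⊆ connectedComponentIn IR c := hEc.subset_connectedComponentIn hcE hE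
      rw [h5] at h6
      exact hxy ((h6 hx).trans (h6 hy).symm)
  · constructor
    · exact fun h => measure_mono_null inter_subset_left h
    · intro h
      have h1 : volume (IR \ Fat) = 0 :=
        Pool.Agent.Y736.RN.volume_zero_of_dimH (by rw [hbad]; norm_num)
      have h2 : IR ⊆ (IR ∩ Fat) ∪ (IR \ Fat) := by
        rw [inter_union_sdiff]
      exact measure_mono_null h2 (measure_union_null h h1)

end Pool.Agent.Results.MP_b511e9_an.FatLevelSets
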